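import Mathlib

/-! # The product of multilinear maps in disjoint groups of variables -/

set_option autoImplicit false

namespace Pool.Agent.Q225.D3H

theorem exists_prod (H : Type) [AddCommGroup H] [Module ℚ H] (κ : Type) (m : ℕ) (n : Fin m → ℕ)
    (e : (Σ i : Fin m, Fin (n i)) ≃ κ) (D : ∀ i, MultilinearMap ℚ (fun _ : Fin (n i) => H) ℂ) :
    ∃ F : MultilinearMap ℚ (fun _ : κ => H) ℂ, ∀ v, F v = ∏ i, D i (fun a => v (e ⟨i, a⟩)) := by
  classical
  have key : ∀ (v : κ → H) (i0 : Fin m) (k0 : Fin (n i0)) (z : H),
      (∏ i, D i (fun a => Function.update v (e ⟨i0, k0⟩) z (e ⟨i, a⟩))) =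
        D i0 (Function.update (fun a => v (e ⟨i0, a⟩)) k0 z) *
          ∏ i ∈ Finset.univ.erase i0, D i (fun a => v (e ⟨i, a⟩)) := by
    intro v i0 k0 z
    rw [← Finset.mul_prod_erase Finset.univ _ (Finset.mem_univ i0)]
    congr 1
    · congr 1
      funext a
      by_cases h : a = k0
      · rw [h, Function.update_self, Function.update_self]
      · rw [Function.update_of_ne h, Function.update_of_ne]
        intro h2
        apply h
        have h3 := e.injective h2
        simpa using h3
    · refine Finset.prod_congr rfl fun i hi => ?_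
      congr 1
      funext a
      rw [Function.update_of_ne]
      intro h2
      have h3 := congrArg Sigma.fst (e.injective h2)
      exact (Finset.ne_of_mem_erase hi) h3
  refine ⟨{ toFun := fun v => ∏ i, D i (fun a => v (e ⟨i, a⟩))
            map_update_add' := ?_
            map_update_smul' := ?_ }, fun v => rfl⟩
  · intro inst v k y z
    obtain ⟨⟨i0, k0⟩, rfl⟩ := e.surjective k
    have hi : inst = fun a b => Classical.propDecidable (a = b) := Subsingleton.elim _ _
    subst hi
    rw [key, key, key, MultilinearMap.map_update_add, add_mul]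
  · intro inst v k c z
    obtain ⟨⟨i0, k0⟩, rfl⟩ := e.surjective k
    have hi : inst = fun a b => Classical.propDecidable (a = b) := Subsingleton.elim _ _
    subst hi
    rw [key, key, MultilinearMap.map_update_smul, smul_mul_assoc]

end Pool.Agent.Q225.D3H
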