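import Pool.Agent.Q60.D3H.StmA
import Pool.Agent.Q274.D3G.Core
import Pool.Agent.Q225.D3H.Prod

/-! # Project D3H (helper60), JOB A3 COREF -/

set_option autoImplicit false
set_option linter.unusedSectionVars false

namespace Pool.Agent.Q225.D3H

open NumberField Module Pool.Agent.H204R3.CM Pool.Agent.Q60.D3G Pool.Agent.Q60.D3H
open Pool.Agent.W547.KB (CMPair CMAV cc IsHalf Wt St mono trForm single Balanced ev evLin mono_apply)
open Pool.Agent.W547.LD (IsImag fld stab emb pairOf prodOf Orb orbWt tr mem_tr tr_one balanced_iff wt)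
open Pool.Agent.W547.LD.Comb (OrbT psum eps eps_cases)
open Pool.Agent.Q60.D3 (AV IsHom IsSimple IsCM IsIsogenousToProd)
open Pool.Agent.Q60.D3E (IsoCM)
open Pool.Agent.Q180.WT (Gen GC KO Mon Good)

section comb

variable {L : Type} [Field L] [NumberField L] [IsCMField L] [IsGalois ℚ L]

theorem sum_zero {Q : Type} [Fintype Q] (N : Subgroup (L ≃ₐ[ℚ] L)) (x : Q → Set (L ≃ₐ[ℚ] L))
    [Fintype (Orb N x)] [DecidableEq (Orb N x)] {i2 : ∀ q, Fintype (OrbT N (x q))}
    (hbal : Balanced (fun k : Orb N x => k.2.1)) :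
    ∑ q, psum N (x q) 1 = 0 := by
  have h := (balanced_iff _).1 hbal 1
  let i0 : ∀ q, Fintype {S : Set (L ≃ₐ[ℚ] L) // ∃ τ ∈ N, tr τ (x q) = S} := i2
  have h2 := Fintype.sum_sigma (fun k : (Σ q : Q, {S : Set (L ≃ₐ[ℚ] L) // ∃ τ ∈ N, tr τ (x q) = S}) =>
    eps k.2.1 1)
  refine h2.symm.trans (Eq.trans ?_ h)
  refine Finset.sum_congr ?_ fun _ _ => rfl
  ext k
  refine ⟨fun _ => ?_, fun _ => ?_⟩
  · exact @Finset.mem_univ _ (_) k
  · exact @Finset.mem_univ _ (_) k

end comb

section main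

variable {L : Type} [Field L] [NumberField L] [IsCMField L] [IsGalois ℚ L] (j : L →+* ℂ)
  (N : Subgroup (L ≃ₐ[ℚ] L)) {Q : Type} [Fintype Q] (x : Q → Set (L ≃ₐ[ℚ] L)) (hx : ∀ q, IsHalf (x q))

/-- the projection to a factor -/
noncomputable def pr (q : Q) : (av (prodOf j x hx)).H →ₗ[ℚ] (av (single (pairOf j (x q) (hx q)))).H where
  toFun w := fun _ => (show (prodOf j x hx).H1 from w) q
  map_add' _ _ := rfl
  map_smul' _ _ := rfl

theorem isHom_pr (q : Q) : IsHom (av (prodOf j x hx)) (av (single (pairOf j (x q) (hx q))))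
    (pr j x hx q) := by
  refine ⟨{ toFun := fun t => fun _ φ => (show (prodOf j x hx).Tan from t) q φ
            map_add' := fun _ _ => rfl
            map_smul' := fun _ _ => rfl }, fun w => rfl⟩

/-- the coordinates -/
noncomputable def lk (k : Orb N x) : (av (prodOf j x hx)).H →ₗ[ℚ] ℂ where
  toFun w := j (ev (show (prodOf j x hx).H1 from w) (orbWt j N x hx k))
  map_add' v w := by
    have h := (evLin (orbWt j N x hx k)).map_add v w
    exact (congrArg j h).trans (map_add j _ _)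
  map_smul' a w := by
    have h := (evLin (orbWt j N x hx k)).map_smul a w
    exact (congrArg j h).trans (map_rat_smul j a _)

end main

theorem coref (h1 : S_root) (h2 : S_lap) (h3 : S_trc) (h4 : S_cko) : S_coreF := by
  intro 𝒟 L _ _ _ _ j N Q _ x hx _ _ hN hst hcard hbal α
  obtain ⟨δ, d, hd, hδ, hfix⟩ := h1 L j N hN
  have e : ∀ q, Fin (Nat.card (OrbT N (x q))) ≃ OrbT N (x q) := fun q =>
    (Finite.equivFin _).symm
  choose K hKd hKμ hKs hKδ using fun q => h4 L j N hN δ d hd hδ hfix (x q) (hx q) (hst q)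
    (Nat.card (OrbT N (x q))) (e q)
  have hsum : ∑ q, (K q).s = 0 := by
    have h8 : (((∑ q, (K q).s : ℤ) : ℚ)) = 0 := by
      push_cast
      rw [← sum_zero N x hbal]
      exact Finset.sum_congr rfl fun q _ => hKs q
    exact_mod_cast h8
  have hD : ∀ q, Nat.card (OrbT N (x q)) ≠ 1 → (K q).s ≠ 0 ∧
      ∃ r ∈ 𝒟, Nat.card (OrbT N (x q)) + (K q).s.natAbs = 2 * r := by
    intro q hq
    obtain ⟨h5, r, hr, h6⟩ := (hcard q).resolve_left hq
    rw [← hKs q] at h5 h6
    refine ⟨by exact_mod_cast h5, r, hr, ?_⟩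
    have h7 : (((K q).s.natAbs : ℕ) : ℚ) = |((K q).s : ℚ)| := by
      rw [Nat.cast_natAbs, Int.cast_abs]
    rw [← h7] at h6
    exact_mod_cast h6
  -- the equivalence
  let o : Fin (Fintype.card Q) ≃ Q := (Fintype.equivFin Q).symm
  let E : (Σ i : Fin (Fintype.card Q), Fin (Nat.card (OrbT N (x (o i))))) ≃ Orb N x :=
    (Equiv.sigmaCongrRight fun i => e (o i)).trans
      (Equiv.sigmaCongrLeft (β := fun q => {S : Set (L ≃ₐ[ℚ] L) // ∃ τ ∈ N, tr τ (x q) = S}) o)
  let M : Mon 𝒟 (av (prodOf j x hx)) (Orb N x) :=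
    { m := Fintype.card Q
      n := fun i => Nat.card (OrbT N (x (o i)))
      A := fun i => av (single (pairOf j (x (o i)) (hx (o i))))
      D := fun i => K (o i)
      hD := fun i => hD (o i)
      h := fun i _ => pr j x hx (o i)
      hh := fun i _ => isHom_pr j x hx (o i)
      p := 0
      β := fun q => q.elim0
      hβ := fun q => q.elim0
      e := (Equiv.sumEmpty _ _).trans E }
  have hM : M.Balanced := by
    intro d'
    change ∑ i : Fin (Fintype.card Q), (if (K (o i)).d = d' then (K (o i)).s else 0) = 0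
    have h5 : ∀ i, (if (K (o i)).d = d' then (K (o i)).s else 0) =
        if d = d' then (K (o i)).s else 0 := fun i => by rw [hKd]
    rw [Finset.sum_congr rfl fun i _ => h5 i]
    split_ifs
    · rw [Equiv.sum_comp o (fun q => (K q).s)]
      exact hsum
    · exact Finset.sum_const_zero
  obtain ⟨F, hFv⟩ := exists_prod (av (prodOf j x hx)).H (Orb N x) (Fintype.card Q)
    (fun i => Nat.card (OrbT N (x (o i)))) E
    (fun i => (K (o i)).δ.toMultilinearMap.compLinearMap fun _ => pr j x hx (o i))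
  have hFv' : ∀ v, F v = ∏ i, (K (o i)).δ (fun a => pr j x hx (o i) (v (E ⟨i, a⟩))) := hFv
  have hgood : Good 𝒟 (av (prodOf j x hx)) (Orb N x) F := by
    refine Pool.Agent.Q180.WT.bal 𝒟 _ _ M hM F fun v => ?_
    rw [hFv']
    unfold Mon.val
    change _ = (∏ i : Fin (Fintype.card Q), (K (o i)).δ fun k => pr j x hx (o i) (v (E ⟨i, k⟩))) *
      ∏ q : Fin 0, _
    rw [Finset.univ_eq_empty (α := Fin 0), Finset.prod_empty, mul_one]
  let G : MultilinearMap ℚ (fun _ : Orb N x => (av (prodOf j x hx)).H) ℂ :=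
    (MultilinearMap.mkPiAlgebra ℚ (Orb N x) ℂ).compLinearMap (lk j N x hx)
  have hGv : ∀ v, G v = ∏ k, lk j N x hx k (v k) := fun v => by
    change (MultilinearMap.mkPiAlgebra ℚ (Orb N x) ℂ) (fun k => lk j N x hx k (v k)) = _
    rw [MultilinearMap.mkPiAlgebra_apply]
  have hlap := h2 (av (prodOf j x hx)).H (Orb N x) (Fintype.card Q)
    (fun i => Nat.card (OrbT N (x (o i)))) E (lk j N x hx) F G (fun v => by
      rw [hFv']
      exact Finset.prod_congr rfl fun i _ => hKδ (o i) _) hGv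
  have hc : (((∏ i : Fin (Fintype.card Q), (Nat.card (OrbT N (x (o i)))).factorial : ℕ)) : ℂ) ≠ 0 := by
    rw [Nat.cast_ne_zero]
    exact Finset.prod_ne_zero_iff.2 fun i _ => Nat.factorial_ne_zero _
  have hmem : MultilinearMap.alternatization G ∈ GC 𝒟 (av (prodOf j x hx)) (Orb N x) := by
    have h5 : MultilinearMap.alternatization F ∈ GC 𝒟 (av (prodOf j x hx)) (Orb N x) := hgood
    rw [hlap] at h5
    have h6 := Submodule.smul_mem _
      (((∏ i : Fin (Fintype.card Q), (Nat.card (OrbT N (x (o i)))).factorial : ℕ) : ℂ)⁻¹) h5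
    rwa [smul_smul, inv_mul_cancel₀ hc, one_smul] at h6
  have hA : ∀ v : Orb N x → (av (prodOf j x hx)).H, MultilinearMap.alternatization G v =
      ∑ σ : Equiv.Perm (Orb N x), ((Equiv.Perm.sign σ : ℤ) : ℂ) * ∏ k, lk j N x hx k (v (σ k)) := by
    intro v
    rw [MultilinearMap.alternatization_apply]
    refine Finset.sum_congr rfl fun σ _ => ?_
    rw [Units.smul_def, zsmul_eq_mul, MultilinearMap.domDomCongr_apply, hGv]
  refine h3 𝒟 (prodOf j x hx) L j (Orb N x) (orbWt j N x hx) (MultilinearMap.alternatization G)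
    (fun v => ?_) hmem α
  refine (hA v).trans ?_
  rw [mono_apply, map_sum]
  refine Finset.sum_congr rfl fun σ _ => ?_
  rw [map_mul, map_intCast, map_prod]
  rfl

end Pool.Agent.Q225.D3H
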