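import Pool.Agent.Q60.D3H.StmA
import Pool.Agent.W547.LN.Closure

/-! # Project D3H (helper60), JOB A5 DIV -/

set_option autoImplicit false

namespace Pool.Agent.Q225.D3H

open NumberField Module Pool.Agent.H204R3.CM Pool.Agent.Q60.D3H
open Pool.Agent.W547.KB Pool.Agent.W547.LD Pool.Agent.W547.LN

theorem div : S_div := by
  intro B L _ _ _ _ j hj
  classical
  have : Finite (B.E →+* L) := by
    apply Nat.finite_of_card_ne_zero
    rw [card_hom B j hj]
    exact Module.finrank_pos.ne'
  have := Fintype.ofFinite (B.E →+* L)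
  have h4 : (Set.range (hs B j)).ncard = (Finset.univ.image (hs B j)).card := by
    rw [← Set.ncard_coe_finset, Finset.coe_image, Finset.coe_univ, Set.image_univ]
  have h6 : (Finset.univ : Finset (B.E →+* L)).card = finrank ℚ B.E := by
    rw [Finset.card_univ, ← Nat.card_eq_fintype_card, card_hom B j hj]
  have hpos : 0 < Fintype.card (B.E →+* L) := by
    rw [← Finset.card_univ, h6]
    exact Module.finrank_pos
  obtain ⟨φ0⟩ := Fintype.card_pos_iff.1 hpos
  have hfib : ∀ S ∈ Finset.univ.image (hs B j),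
      (Finset.univ.filter (fun φ => hs B j φ = S)).card =
        (Finset.univ.filter (fun φ => hs B j φ = hs B j φ0)).card := by
    intro S hS
    obtain ⟨ψ, -, rfl⟩ := Finset.mem_image.1 hS
    obtain ⟨g, hg⟩ := exists_smul B φ0 ψ
    symm
    refine Finset.card_bij (fun φ _ => g • φ) ?_ ?_ ?_
    · intro φ hφ
      rw [Finset.mem_filter] at hφ ⊢
      refine ⟨Finset.mem_univ _, ?_⟩
      rw [← tr_hs, hφ.2, tr_hs, hg]
    · intro φ _ φ' _ h
      exact smul_left_cancel g h
    · intro φ hφ
      rw [Finset.mem_filter] at hφ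
      refine ⟨g⁻¹ • φ, ?_, smul_inv_smul g φ⟩
      rw [Finset.mem_filter]
      refine ⟨Finset.mem_univ _, ?_⟩
      rw [← tr_hs, hφ.2, ← hg, tr_hs, inv_smul_smul]
  have hcard : finrank ℚ B.E = (Finset.univ.image (hs B j)).card *
      (Finset.univ.filter (fun φ => hs B j φ = hs B j φ0)).card := by
    rw [← h6, Finset.card_eq_sum_card_image (hs B j) Finset.univ, Finset.sum_congr rfl hfib,
      Finset.sum_const, smul_eq_mul]
  refine ⟨?_, Comb.even_ncard (compl_hs B j), fun h => ?_⟩
  · rw [h4, hcard]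
    exact dvd_mul_right _ _
  · rw [h4, ← h6] at h
    have h7 := Finset.card_image_iff.1 h
    intro φ φ' h8
    exact h7 (Finset.mem_coe.2 (Finset.mem_univ φ)) (Finset.mem_coe.2 (Finset.mem_univ φ')) h8

end Pool.Agent.Q225.D3H
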