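import Pool.Agent.Q60.D3H.StmD

/-!
# Project D3H, job D1 NFINE: orbits with independent functions and a maximal pair stabilizer
-/

set_option linter.unusedSectionVars false
set_option linter.unusedVariables false

namespace Pool.Agent.Q225.D3H

open Module Pool.Agent.W547.LD.Comb Pool.Agent.Q60.D3G Pool.Agent.Q60.D3H

section
variable {G : Type} [Group G] [Fintype G]

theorem FF_add (a b : Set G → ℚ) : FF (a + b) = FF a + FF b := by
  classical
  rw [FF_eq, FF_eq, FF_eq, ← Finset.sum_add_distrib]
  refine Finset.sum_congr rfl fun S _ => ?_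
  rw [Pi.add_apply, add_smul]

theorem FF_smul (r : ℚ) (a : Set G → ℚ) : FF (r • a) = r • FF a := by
  classical
  rw [FF_eq, FF_eq, Finset.smul_sum]
  refine Finset.sum_congr rfl fun S _ => ?_
  rw [Pi.smul_apply, smul_smul, smul_eq_mul]

/-- Odd functions supported on `Q`. -/
structure AA (Q : Set (Set G)) (a : Set G → ℚ) : Prop where
  supp : ∀ S, S ∉ Q → a S = 0
  odd : ∀ S, a Sᶜ = -a S

theorem AA.add {Q : Set (Set G)} {a b : Set G → ℚ} (ha : AA Q a) (hb : AA Q b) : AA Q (a + b) :=
  ⟨fun S hS => by rw [Pi.add_apply, ha.supp S hS, hb.supp S hS, add_zero],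
    fun S => by rw [Pi.add_apply, Pi.add_apply, ha.odd, hb.odd]; ring⟩

theorem AA.smul {Q : Set (Set G)} {a : Set G → ℚ} (ha : AA Q a) (r : ℚ) : AA Q (r • a) :=
  ⟨fun S hS => by rw [Pi.smul_apply, ha.supp S hS, smul_zero],
    fun S => by rw [Pi.smul_apply, Pi.smul_apply, ha.odd, smul_neg]⟩

theorem mem_of_tr {Q : Set (Set G)} (hQ : Stable Q) {τ : G} {S : Set G} (h : tr τ S ∈ Q) :
    S ∈ Q := by
  have h1 := hQ τ⁻¹ _ h
  rwa [tr_inv_tr] at h1

theorem AA.tr {Q : Set (Set G)} (hQ : Stable Q) {a : Set G → ℚ} (ha : AA Q a) (τ : G) :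
    AA Q (fun S => a (W547.LD.Comb.tr τ S)) :=
  ⟨fun S hS => ha.supp _ fun h => hS (mem_of_tr hQ h),
    fun S => by rw [tr_compl, ha.odd]⟩

theorem exists_AA {Q : Set (Set G)} (hcp : ∀ S ∈ Q, Sᶜ ∈ Q) {F : G → ℚ} (hF : F ∈ VV Q) :
    ∃ a, AA Q a ∧ FF a = F := by
  classical
  refine Submodule.span_induction (p := fun F _ => ∃ a, AA Q a ∧ FF a = F) ?_ ?_ ?_ ?_ hF
  · rintro _ ⟨S, hS, rfl⟩
    refine ⟨fun T => if T = S then 1 / 2 else if T = Sᶜ then -(1 / 2) else 0, ⟨?_, ?_⟩, ?_⟩
    · intro T hT
      have h1 : T ≠ S := fun h => hT (h ▸ hS)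
      have h2 : T ≠ Sᶜ := fun h => hT (h ▸ hcp S hS)
      simp only [h1, h2, if_false]
    · intro T
      have hne := ne_compl S
      by_cases h1 : T = S
      · subst h1
        have h2 : Tᶜ ≠ T := fun h => hne h.symm
        simp [h2]
      · by_cases h2 : T = Sᶜ
        · subst h2
          have h3 : Sᶜ ≠ S := fun h => hne h.symm
          simp [h3]
        · have h3 : Tᶜ ≠ S := fun h => h2 (by rw [← h, compl_compl])
          have h4 : Tᶜ ≠ Sᶜ := fun h => h1 (compl_injective h)
          simp [h1, h2, h3, h4]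
    · rw [FF_eq]
      have hne := ne_compl S
      have h1 : ∀ T : Set G, ((if T = S then (1 / 2 : ℚ) else if T = Sᶜ then -(1 / 2) else 0) : ℚ) •
          eps T = (if T = S then (1 / 2 : ℚ) • eps S else 0)
            + (if T = Sᶜ then (1 / 2 : ℚ) • eps S else 0) := by
        intro T
        by_cases h1 : T = S
        · subst h1
          rw [if_pos rfl, if_pos rfl, if_neg hne, add_zero]
        · by_cases h2 : T = Sᶜ
          · subst h2
            rw [if_neg h1, if_pos rfl, if_neg h1, if_pos rfl, eps_compl', zero_add, neg_smul,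
              smul_neg, neg_neg]
          · rw [if_neg h1, if_neg h2, if_neg h1, if_neg h2, zero_smul, add_zero]
      rw [Finset.sum_congr rfl (fun T _ => h1 T), Finset.sum_add_distrib, Finset.sum_ite_eq',
        Finset.sum_ite_eq', if_pos (Finset.mem_univ _), if_pos (Finset.mem_univ _), ← add_smul]
      norm_num
  · refine ⟨0, ⟨fun _ _ => rfl, fun _ => by simp⟩, ?_⟩
    rw [FF_eq]
    simp
  · rintro x y _ _ ⟨a, ha, rfl⟩ ⟨b, hb, rfl⟩
    exact ⟨a + b, ha.add hb, FF_add a b⟩
  · rintro r x _ ⟨a, ha, rfl⟩
    exact ⟨r • a, ha.smul r, FF_smul r a⟩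

theorem AA_inj {Q : Set (Set G)}
    (hinj : ∀ a : Set G → ℚ, (∀ S, S ∉ Q → a S = 0) → (∀ S, a Sᶜ = -a S) → FF a = 0 → a = 0)
    {a b : Set G → ℚ} (ha : AA Q a) (hb : AA Q b) (h : FF a = FF b) : a = b := by
  have h1 : AA Q (a + (-1 : ℚ) • b) := ha.add (hb.smul _)
  have h2 := hinj _ h1.supp h1.odd (by
    rw [FF_add, FF_smul, h, neg_one_smul, add_neg_cancel])
  funext S
  have h3 := congrFun h2 S
  rw [Pi.add_apply, Pi.smul_apply, Pi.zero_apply, smul_eq_mul] at h3
  linarith

theorem odd_FF {c : G} {Q : Set (Set G)} (hhalf : ∀ S ∈ Q, Half c S) {F : G → ℚ}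
    (hF : F ∈ VV Q) (σ : G) : F (c * σ) = -F σ := by
  refine Submodule.span_induction (p := fun F _ => F (c * σ) = -F σ) ?_ ?_ ?_ ?_ hF
  · rintro _ ⟨S, hS, rfl⟩
    have h1 := hhalf _ hS σ
    unfold eps
    by_cases h : σ ∈ S
    · rw [if_pos h, if_neg (h1.1 h)]
    · rw [if_neg h, if_pos (by tauto), neg_neg]
  · simp
  · intro x y _ _ hx hy
    rw [Pi.add_apply, Pi.add_apply, hx, hy]
    ring
  · intro a x _ hx
    rw [Pi.smul_apply, Pi.smul_apply, hx, smul_neg]

theorem sq_chi {N : Subgroup G} (g : G) : chi N g * chi N g = 1 := by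
  rcases eps_cases {σ | σ ∈ N} g with h | h <;> rw [chi, h] <;> norm_num

theorem proj_chi {c : G} (hc : ∀ g, c * g = g * c) {N : Subgroup G} (hN : Imag c N) (F : G → ℚ) :
    ∑ g, chi N g • rtr g F = dot F (chi N) • chi N := by
  funext σ
  rw [Finset.sum_apply, Pi.smul_apply, smul_eq_mul, dot, Finset.sum_mul]
  refine Fintype.sum_equiv (Equiv.mulLeft σ) _ _ fun g => ?_
  have h1 := congrFun (rtr_chi hc hN g) σ
  rw [rtr_apply, Pi.smul_apply, smul_eq_mul] at h1
  rw [Pi.smul_apply, rtr_apply, smul_eq_mul]
  change chi N g * F (σ * g) = F (σ * g) * chi N (σ * g) * chi N σ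
  rw [h1]
  linear_combination (-(F (σ * g) * chi N g)) * sq_chi (N := N) σ

end

theorem nfine (h3 : S_line) : S_nfine := by
  classical
  intro G _ _ c hc Q hQ ht hcp hhalf hmax hcard hinj
  refine ⟨hQ, ht, hcp, hhalf, ?_, ?_⟩
  · -- the sums over normal subgroups
    intro M hMn hMf hMk F hF
    obtain ⟨F', hF'⟩ : ∃ F', F' = ∑ h : M, rtr h.1 F := ⟨_, rfl⟩
    rw [← hF']
    have hFV : F' ∈ VV Q := by
      rw [hF']
      exact Submodule.sum_mem _ fun h _ => rtr_mem_VV hQ _ hF
    have hfix : ∀ k ∈ M, rtr k F' = F' := by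
      intro k hk
      rw [hF', map_sum]
      refine Fintype.sum_equiv (Equiv.mulLeft (⟨k, hk⟩ : M)) _ _ fun h => ?_
      rw [rtr_rtr]
      rfl
    obtain ⟨a, ha, haF⟩ := exists_AA hcp hFV
    have hainv : ∀ k ∈ M, ∀ S, a (tr k S) = a S := by
      intro k hk S
      have h1 : FF (fun S => a (tr k S)) = FF a := by
        have h2 := rtr_FF k⁻¹ a
        rw [inv_inv] at h2
        rw [← h2, haF, hfix _ (M.inv_mem hk)]
      exact congrFun (AA_inj hinj (ha.tr hQ k) ha h1) S
    by_cases hpairs : ∀ h ∈ M, ∀ S ∈ Q, tr h S = S ∨ tr h S = Sᶜ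
    · -- `M` fixes all the pairs
      have ha0 : a = 0 := by
        obtain ⟨h1, hh1, S1, hS1, e1⟩ : ∃ h1 ∈ M, ∃ S1 ∈ Q, tr h1 S1 ≠ S1 := by
          by_contra hcon
          push Not at hcon
          exact hMk fun h hh S hS => hcon h hh S hS
        have e2 := (hpairs h1 hh1 S1 hS1).resolve_left e1
        funext S
        by_cases hS : S ∈ Q
        · obtain ⟨g, hg⟩ := ht S1 hS1 S hS
          have h4 : tr (g * h1 * g⁻¹) S = Sᶜ := by
            rw [← hg, tr_tr, show g * h1 * g⁻¹ * g = g * h1 by group, ← tr_tr, e2, tr_compl]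
          have h5 := hainv _ (hMn.conj_mem h1 hh1 g) S
          rw [h4, ha.odd] at h5
          rw [Pi.zero_apply]
          linarith
        · exact ha.supp S hS
      rw [← haF, ha0]
      have : FF (0 : Set G → ℚ) = 0 := by
        rw [FF_eq]
        simp
      rw [this]
      exact Submodule.zero_mem _
    · push Not at hpairs
      obtain ⟨h1, hh1, S1, hS1, e1, e2⟩ := hpairs
      -- `M` permutes the pairs transitively
      have htrans : ∀ T ∈ Q, ∃ m ∈ M, T = tr m S1 ∨ T = (tr m S1)ᶜ := by
        let H : Subgroup G :=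
          { carrier := {g | ∃ m ∈ M, tr g S1 = tr m S1 ∨ tr g S1 = (tr m S1)ᶜ}
            one_mem' := ⟨1, M.one_mem, Or.inl rfl⟩
            mul_mem' := by
              rintro τ τ' ⟨h, hh, h1⟩ ⟨h', hh', h1'⟩
              refine ⟨(τ * h' * τ⁻¹) * h, M.mul_mem (hMn.conj_mem h' hh' τ) hh, ?_⟩
              have k1 : tr (τ * h') S1 = tr (τ * h' * τ⁻¹) (tr τ S1) := by
                rw [tr_tr]
                congr 1
                group
              have k2 : tr (τ * τ') S1 = tr (τ * h') S1 ∨ tr (τ * τ') S1 = (tr (τ * h') S1)ᶜ := by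
                rw [← tr_tr, ← tr_tr]
                rcases h1' with h | h
                · left; rw [h]
                · right; rw [h, tr_compl]
              have k3 : tr (τ * h') S1 = tr ((τ * h' * τ⁻¹) * h) S1 ∨
                  tr (τ * h') S1 = (tr ((τ * h' * τ⁻¹) * h) S1)ᶜ := by
                rw [k1, ← tr_tr (τ * h' * τ⁻¹) h]
                rcases h1 with h | h
                · left; rw [h]
                · right; rw [h, tr_compl]
              rcases k2 with k2 | k2 <;> rcases k3 with k3 | k3
              · left; rw [k2, k3]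
              · right; rw [k2, k3]
              · right; rw [k2, k3]
              · left; rw [k2, k3, compl_compl]
            inv_mem' := by
              rintro τ ⟨h, hh, h1⟩
              refine ⟨τ⁻¹ * h⁻¹ * τ, ?_, ?_⟩
              · have := hMn.conj_mem h⁻¹ (M.inv_mem hh) τ⁻¹
                rwa [inv_inv] at this
              · have k1 : tr (τ⁻¹ * h⁻¹ * τ) S1 = tr (τ⁻¹ * h⁻¹) (tr τ S1) := by
                  rw [tr_tr]
                have k2 : tr (τ⁻¹ * h⁻¹) (tr h S1) = tr τ⁻¹ S1 := by
                  rw [tr_tr]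
                  congr 1
                  group
                rw [k1]
                rcases h1 with h | h
                · left; rw [h, k2]
                · right; rw [h, tr_compl, k2, compl_compl] }
        have hH : ∀ τ, tr τ S1 = S1 ∨ tr τ S1 = S1ᶜ → τ ∈ H := by
          intro τ hτ
          refine ⟨1, M.one_mem, ?_⟩
          rw [tr_one]
          exact hτ
        have hHt : H = ⊤ := by
          refine (hmax S1 hS1 H hH).resolve_left fun h => ?_
          rcases h h1 ⟨h1, hh1, Or.inl rfl⟩ with h | h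
          · exact e1 h
          · exact e2 h
        intro T hT
        obtain ⟨g, hg⟩ := ht S1 hS1 T hT
        obtain ⟨m, hm, h⟩ : g ∈ H := by rw [hHt]; exact Subgroup.mem_top g
        refine ⟨m, hm, ?_⟩
        rw [← hg]
        exact h
      by_cases ha1 : a S1 = 0
      · have ha0 : a = 0 := by
          funext S
          by_cases hS : S ∈ Q
          · obtain ⟨m, hm, h | h⟩ := htrans S hS
            · rw [h, hainv m hm, ha1]
              rfl
            · rw [h, ha.odd, hainv m hm, ha1]
              simp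
          · exact ha.supp S hS
        rw [← haF, ha0]
        have : FF (0 : Set G → ℚ) = 0 := by
          rw [FF_eq]
          simp
        rw [this]
        exact Submodule.zero_mem _
      · refine h3 G c hc F' (odd_FF hhalf hFV) fun g => ⟨a (tr g⁻¹ S1) / a S1, ?_⟩
        have hb : ∀ k ∈ M, ∀ S, a (tr g⁻¹ (tr k S)) = a (tr g⁻¹ S) := by
          intro k hk S
          have k1 : tr g⁻¹ (tr k S) = tr (g⁻¹ * k * g) (tr g⁻¹ S) := by
            rw [tr_tr, tr_tr]
            congr 1
            group
          rw [k1, hainv]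
          have := hMn.conj_mem k hk g⁻¹
          rwa [inv_inv] at this
        rw [← haF, rtr_FF, ← FF_smul]
        congr 1
        funext S
        rw [Pi.smul_apply, smul_eq_mul]
        by_cases hS : S ∈ Q
        · obtain ⟨m, hm, h | h⟩ := htrans S hS
          · rw [h, hainv m hm, hb m hm]
            field_simp
          · rw [h, tr_compl, ha.odd, ha.odd, hainv m hm, hb m hm]
            field_simp
        · rw [ha.supp S hS, mul_zero]
          exact ha.supp _ fun h => hS (mem_of_tr hQ h)
  · -- relations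
    intro a ha0 ha1 hFF x hx
    have ha : AA Q a := ⟨ha0, ha1⟩
    have hxQ : x ∈ Q := by
      by_contra h
      exact hx (ha0 x h)
    have hFV : FF a ∈ VV Q := FF_mem_VV ha0
    have hF0 : FF a ≠ 0 := by
      intro h
      apply hx
      rw [hinj a ha0 ha1 h]
      rfl
    -- an odd function whose translates are multiples by a character
    have hchar : ∀ N : Subgroup G, Imag c N → ∀ b, AA Q b → ∀ r : ℚ, FF b = r • chi N →
        ∀ g S, b (tr g S) = chi N g * b S := by
      intro N hN b hb r hbN g S
      have h1 : FF (fun S => b (tr g⁻¹ S)) = FF (chi N g • b) := by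
        rw [← rtr_FF, FF_smul, hbN, map_smul, rtr_chi hc hN, smul_comm]
      have h2 := congrFun (AA_inj hinj (hb.tr hQ g⁻¹) (hb.smul _) h1) (tr g S)
      simp only [tr_inv_tr, Pi.smul_apply, smul_eq_mul] at h2
      rw [h2, ← mul_assoc, sq_chi, one_mul]
    have hne0 : ∀ N : Subgroup G, Imag c N → ∀ b, AA Q b → FF b = chi N → b x ≠ 0 := by
      intro N hN b hb hbN h0
      have hb0 : b = 0 := by
        funext S
        by_cases hS : S ∈ Q
        · obtain ⟨g, hg⟩ := ht x hxQ S hS
          rw [← hg, hchar N hN b hb 1 (by rw [hbN, one_smul]) g x, h0, mul_zero]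
          rfl
        · exact hb.supp S hS
      have h1 : chi N 1 = 0 := by
        rw [← hbN, hb0, FF_eq]
        simp
      rw [show chi N 1 = 1 from if_pos N.one_mem] at h1
      exact one_ne_zero h1
    -- at most one character
    have huniq : ∀ N N' : Subgroup G, Imag c N → Imag c N' → chi N ∈ VV Q → chi N' ∈ VV Q →
        N = N' := by
      intro N N' hN hN' hV hV'
      obtain ⟨b, hb, hbN⟩ := exists_AA hcp hV
      obtain ⟨b', hb', hbN'⟩ := exists_AA hcp hV'
      have hstab : ∀ τ, tr τ x = x ∨ tr τ x = xᶜ → (τ ∈ N ↔ τ ∈ N') := by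
        have key : ∀ N : Subgroup G, Imag c N → ∀ b, AA Q b → FF b = chi N → ∀ τ,
            (tr τ x = x → τ ∈ N) ∧ (tr τ x = xᶜ → τ ∉ N) := by
          intro N hN b hb hbN τ
          have k1 := hchar N hN b hb 1 (by rw [hbN, one_smul]) τ x
          have k2 := hne0 N hN b hb hbN
          constructor
          · intro h
            by_contra hcon
            rw [h, show chi N τ = -1 from if_neg hcon] at k1
            exact k2 (by linarith)
          · intro h hτ
            rw [h, hb.odd, show chi N τ = 1 from if_pos hτ] at k1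
            exact k2 (by linarith)
        intro τ hτ
        have k := key N hN b hb hbN τ
        have k' := key N' hN' b' hb' hbN' τ
        rcases hτ with h | h
        · exact iff_of_true (k.1 h) (k'.1 h)
        · exact iff_of_false (k.2 h) (k'.2 h)
      let H : Subgroup G :=
        { carrier := {g | g ∈ N ↔ g ∈ N'}
          one_mem' := iff_of_true N.one_mem N'.one_mem
          mul_mem' := by
            intro g g' h h'
            change g * g' ∈ N ↔ g * g' ∈ N'
            have h1 : g ∈ N ↔ g ∈ N' := h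
            have h2 : g' ∈ N ↔ g' ∈ N' := h'
            rw [hN.mul_mem_iff hc, hN'.mul_mem_iff hc, h1, h2]
          inv_mem' := by
            intro g h
            change g⁻¹ ∈ N ↔ g⁻¹ ∈ N'
            rw [N.inv_mem_iff, N'.inv_mem_iff]
            exact h }
      by_contra hNN
      obtain ⟨g0, hg0⟩ : ∃ g, ¬ (g ∈ N ↔ g ∈ N') := by
        by_contra hcon
        push Not at hcon
        exact hNN (Subgroup.ext fun g => hcon g)
      have hHle : ∀ τ ∈ H, tr τ x = x ∨ tr τ x = xᶜ := by
        refine (hmax x hxQ H hstab).resolve_right fun h => hg0 ?_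
        have h1 : g0 ∈ H := by rw [h]; exact Subgroup.mem_top g0
        exact h1
      have hsub : Q ⊆ ({x, xᶜ, tr g0 x, tr g0 xᶜ} : Finset (Set G)) := by
        intro T hT
        obtain ⟨g, hg⟩ := ht x hxQ T hT
        simp only [Finset.coe_insert, Finset.coe_singleton, Set.mem_insert_iff,
          Set.mem_singleton_iff]
        by_cases hgH : g ∈ H
        · rcases hHle g hgH with h | h
          · left; rw [← hg, h]
          · right; left; rw [← hg, h]
        · have h1 : g0⁻¹ * g ∈ H := by
            change g0⁻¹ * g ∈ N ↔ g0⁻¹ * g ∈ N'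
            have h2 : ¬ (g ∈ N ↔ g ∈ N') := hgH
            rw [hN.mul_mem_iff hc, hN'.mul_mem_iff hc, N.inv_mem_iff, N'.inv_mem_iff]
            tauto
          have h2 : tr g x = tr g0 (tr (g0⁻¹ * g) x) := by
            rw [tr_tr]
            congr 1
            group
          rcases hHle _ h1 with h | h
          · right; right; left; rw [← hg, h2, h]
          · right; right; right; rw [← hg, h2, h]
      have h5 := Set.ncard_le_ncard hsub (Finset.finite_toSet _)
      rw [Set.ncard_coe_finset] at h5
      have h6 := Finset.card_le_four (a := x) (b := xᶜ) (c := tr g0 x) (d := tr g0 xᶜ)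
      omega
    -- the characters in `VV Q`
    have hmemV : ∀ N : Subgroup G, Imag c N → dot (FF a) (chi N) ≠ 0 → chi N ∈ VV Q := by
      intro N hN hd
      have h1 : dot (FF a) (chi N) • chi N ∈ VV Q := by
        rw [← proj_chi hc hN]
        exact Submodule.sum_mem _ fun g _ => Submodule.smul_mem _ _ (rtr_mem_VV hQ g hFV)
      have h2 := Submodule.smul_mem _ (dot (FF a) (chi N))⁻¹ h1
      rwa [smul_smul, inv_mul_cancel₀ hd, one_smul] at h2
    obtain ⟨N, hN, hd⟩ : ∃ N : Subgroup G, Imag c N ∧ dot (FF a) (chi N) ≠ 0 := by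
      by_contra hcon
      push Not at hcon
      exact hF0 (QQ_ext hFF hcon)
    have hNV := hmemV N hN hd
    have hGc : (Fintype.card G : ℚ) ≠ 0 := by exact_mod_cast Fintype.card_ne_zero
    obtain ⟨r, hr⟩ : ∃ r, r = dot (FF a) (chi N) / Fintype.card G := ⟨_, rfl⟩
    have hr0 : r ≠ 0 := by rw [hr]; exact div_ne_zero hd hGc
    have hFr : FF a = r • chi N := by
      have h1 : FF a - r • chi N = 0 := by
        apply QQ_ext (c := c) (Submodule.sub_mem _ hFF (Submodule.smul_mem _ _ (eps_mem_QQ hN)))
        intro N' hN'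
        rw [dot_sub, dot_smul]
        by_cases hNN : N = N'
        · subst hNN
          rw [dot_chi_self, hr]
          field_simp
          ring
        · rw [dot_chi hc hN hN' hNN, mul_zero, sub_zero]
          by_contra h2
          exact hNN (huniq N N' hN hN' hNV (hmemV N' hN' h2))
      exact sub_eq_zero.1 h1
    have hch := hchar N hN a ha r hFr
    have hpos : ∀ τ ∈ N, ∀ S, a (tr τ S) = a S := by
      intro τ hτ S
      rw [hch, show chi N τ = 1 from if_pos hτ, one_mul]
    have horbv : ∀ S : OrbT N x, a S.1 = a x := by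
      rintro ⟨S, τ, hτ, rfl⟩
      exact hpos τ hτ x
    have horbc : ∀ S T : OrbT N x, S.1 ≠ (T.1)ᶜ := by
      intro S T h
      have h1 := horbv S
      rw [h, ha1, horbv T] at h1
      exact hx (by linarith)
    have hcov : ∀ S ∈ Q, ∃ T : OrbT N x, S = T.1 ∨ S = (T.1)ᶜ := by
      intro S hS
      exact orb_cover hc hhalf hN hxQ (ht x hxQ S hS)
    have horbQ : ∀ S : OrbT N x, S.1 ∈ Q := by
      rintro ⟨S, τ, hτ, rfl⟩
      exact hQ τ x hxQ
    have hps : ∀ σ, FF a σ = 2 * a x * psum N x σ := by
      intro σ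
      have h2 := sum_rep (fun S : OrbT N x => (S.1 : Set G)) Subtype.val_injective horbc
        (fun U => a U * eps U σ) (fun U hU => by
          have hUQ : U ∈ Q := by
            by_contra h
            exact hU (by rw [ha0 U h, zero_mul])
          exact hcov U hUQ)
      have h3 : FF a σ = ∑ U : Set G, a U * eps U σ := rfl
      rw [h3, h2]
      unfold psum
      rw [Finset.mul_sum]
      refine Finset.sum_congr rfl fun S _ => ?_
      rw [ha1, eps_compl, horbv S]
      ring
    have hp1 : psum N x 1 ≠ 0 := by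
      intro h
      have h1 := hps 1
      rw [h, mul_zero, hFr, Pi.smul_apply, smul_eq_mul, show chi N 1 = 1 from if_pos N.one_mem,
        mul_one] at h1
      exact hr0 h1
    have hcardO : 2 * Nat.card (OrbT N x) = Q.ncard := by
      have h1 : Function.Injective (fun s : OrbT N x ⊕ OrbT N x =>
          (Sum.elim (fun S => (S.1 : Set G)) (fun S => (S.1 : Set G)ᶜ) s)) := by
        rintro (S | S) (T | T) h
        · exact congrArg Sum.inl (Subtype.ext h)
        · exact absurd h (horbc S T)
        · exact absurd h.symm (horbc T S)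
        · exact congrArg Sum.inr (Subtype.ext (compl_injective h))
      have h2 : Set.range (fun s : OrbT N x ⊕ OrbT N x =>
          (Sum.elim (fun S => (S.1 : Set G)) (fun S => (S.1 : Set G)ᶜ) s)) = Q := by
        ext S
        constructor
        · rintro ⟨T | T, rfl⟩
          · exact horbQ T
          · exact hcp _ (horbQ T)
        · intro hS
          obtain ⟨T, h | h⟩ := hcov S hS
          · exact ⟨Sum.inl T, h.symm⟩
          · exact ⟨Sum.inr T, h.symm⟩
      rw [← h2, Set.ncard_range_of_injective h1, Nat.card_sum]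
      ring
    refine ⟨N, hN, hhalf x hxQ, ?_, hpos, ?_, ?_, ?_⟩
    · intro τ hτ
      by_contra hcon
      have h1 := hch τ x
      rw [show tr τ x = x from hτ, show chi N τ = -1 from if_neg hcon] at h1
      exact hx (by linarith)
    · right
      right
      exact ⟨hcard, hcardO⟩
    · convert hp1
    · have h1 := hps 1
      rw [hFr, Pi.smul_apply, smul_eq_mul, show chi N 1 = 1 from if_pos N.one_mem, mul_one] at h1
      rw [hFr, h1]

end Pool.Agent.Q225.D3H
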